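import Pool.Agent.Lib.UDGCmp.Defs

/-! Points and lines as unit disks (module of `UDGCmp`). -/

namespace UDGCmp

/-- The computation behind `exists_cfg`, over the reals. -/
theorem cfg_sq {e M x y a b : ℝ} (he : e * (4 * M + 4) = 1) (he0 : 0 < e)
    (hy0 : 0 ≤ y) (hb0 : 0 ≤ b)
    (hx : x ^ 2 ≤ M) (hy : y ≤ 2 * M) (ha : a ^ 2 ≤ M) (hb : b ≤ M) :
    (a * x + b ≤ y → (e * x - -(e * a)) ^ 2 +
      (e ^ 2 * (y + x ^ 2 / 2) - (1 + e ^ 2 * (b - 1 / 2 - a ^ 2 / 2))) ^ 2 ≤ 1) ∧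
    (y + 1 ≤ a * x + b → 1 < (e * x - -(e * a)) ^ 2 +
      (e ^ 2 * (y + x ^ 2 / 2) - (1 + e ^ 2 * (b - 1 / 2 - a ^ 2 / 2))) ^ 2) := by
  have key : (e * x - -(e * a)) ^ 2 +
      (e ^ 2 * (y + x ^ 2 / 2) - (1 + e ^ 2 * (b - 1 / 2 - a ^ 2 / 2))) ^ 2 =
      1 + e ^ 2 * (2 * (a * x + b - y) - 1 +
        (e * (b - 1 / 2 - a ^ 2 / 2 - y - x ^ 2 / 2)) ^ 2) := by ring
  have hM : 0 ≤ M := le_trans (sq_nonneg x) hx
  have hu1 : b - 1 / 2 - a ^ 2 / 2 - y - x ^ 2 / 2 ≤ 4 * M + 4 := by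
    nlinarith [sq_nonneg x, sq_nonneg a]
  have hu2 : -(4 * M + 4) ≤ b - 1 / 2 - a ^ 2 / 2 - y - x ^ 2 / 2 := by
    nlinarith [sq_nonneg x, sq_nonneg a]
  have h1 : e * (b - 1 / 2 - a ^ 2 / 2 - y - x ^ 2 / 2) ≤ 1 := by
    exact (mul_le_mul_of_nonneg_left hu1 he0.le).trans he.le
  have h2 : -1 ≤ e * (b - 1 / 2 - a ^ 2 / 2 - y - x ^ 2 / 2) := by
    have := mul_le_mul_of_nonneg_left hu2 he0.le
    have h3 : e * -(4 * M + 4) = -1 := by rw [mul_neg, he]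
    rw [h3] at this
    exact this
  have hsq : (e * (b - 1 / 2 - a ^ 2 / 2 - y - x ^ 2 / 2)) ^ 2 ≤ 1 := by
    rw [sq_le_one_iff_abs_le_one]
    exact abs_le.2 ⟨h2, h1⟩
  have he2 : 0 < e ^ 2 := by positivity
  rw [key]
  constructor
  · intro h
    have : e ^ 2 * (2 * (a * x + b - y) - 1 +
        (e * (b - 1 / 2 - a ^ 2 / 2 - y - x ^ 2 / 2)) ^ 2) ≤ 0 :=
      mul_nonpos_of_nonneg_of_nonpos he2.le (by linarith)
    linarith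
  · intro h
    have h3 := sq_nonneg (e * (b - 1 / 2 - a ^ 2 / 2 - y - x ^ 2 / 2))
    have : 0 < e ^ 2 * (2 * (a * x + b - y) - 1 +
        (e * (b - 1 / 2 - a ^ 2 / 2 - y - x ^ 2 / 2)) ^ 2) :=
      mul_pos he2 (by linarith)
    linarith

/-- `e = 1 / (4 m² + 4)`, `P x y = (e x, e² (y + x² / 2))`,
`C a b = (- e a, 1 + e² (b - 1/2 - a² / 2))`. With `u = b - 1/2 - a²/2 - y - x²/2`, `|u| ≤ 4 m² + 1/2`:
`|P - C|² = 1 + e² (2 (a x + b - y) - 1 + e² u²)` and `0 ≤ e² u² < 1`. -/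
theorem exists_cfg (m : ℕ) : ∃ P C : ℕ → ℕ → EuclideanSpace ℝ (Fin 2),
    ∀ x y a b : ℕ, x ≤ m → y ≤ 2 * m ^ 2 → a ≤ m → b ≤ m ^ 2 →
      (dist (P x y) (C a b) ≤ 1 ↔ a * x + b ≤ y) := by
  have hpos : (0 : ℝ) < 4 * (m : ℝ) ^ 2 + 4 := by positivity
  obtain ⟨e, he0, he⟩ : ∃ e : ℝ, 0 < e ∧ e * (4 * (m : ℝ) ^ 2 + 4) = 1 :=
    ⟨1 / (4 * (m : ℝ) ^ 2 + 4), by positivity, by field_simp⟩
  refine ⟨fun x y => !₂[e * (x : ℝ), e ^ 2 * ((y : ℝ) + (x : ℝ) ^ 2 / 2)],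
    fun a b => !₂[-(e * (a : ℝ)), 1 + e ^ 2 * ((b : ℝ) - 1 / 2 - (a : ℝ) ^ 2 / 2)], ?_⟩
  intro x y a b hx hy ha hb
  have hxR : (x : ℝ) ^ 2 ≤ (m : ℝ) ^ 2 := by
    have : (x : ℝ) ≤ m := by exact_mod_cast hx
    exact pow_le_pow_left₀ (Nat.cast_nonneg x) this 2
  have haR : (a : ℝ) ^ 2 ≤ (m : ℝ) ^ 2 := by
    have : (a : ℝ) ≤ m := by exact_mod_cast ha
    exact pow_le_pow_left₀ (Nat.cast_nonneg a) this 2
  have hyR : (y : ℝ) ≤ 2 * (m : ℝ) ^ 2 := by exact_mod_cast hy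
  have hbR : (b : ℝ) ≤ (m : ℝ) ^ 2 := by exact_mod_cast hb
  obtain ⟨H1, H2⟩ := cfg_sq he he0 (Nat.cast_nonneg y) (Nat.cast_nonneg b) hxR hyR haR hbR
  rw [EuclideanSpace.dist_eq, Real.sqrt_le_one]
  simp only [Fin.sum_univ_two, Real.dist_eq, sq_abs]
  simp only [Matrix.cons_val_zero, Matrix.cons_val_one]
  constructor
  · intro h
    by_contra hc
    have hc' : y + 1 ≤ a * x + b := by omega
    have hcR : (y : ℝ) + 1 ≤ (a : ℝ) * x + b := by exact_mod_cast hc'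
    exact absurd h (not_le.2 (H2 hcR))
  · intro h
    have hR : (a : ℝ) * x + b ≤ y := by exact_mod_cast h
    exact H1 hR

end UDGCmp
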