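import Pool.Agent.Lib.UDGCmp.Defs

/-! Two queries with one tree (module of `UDGCmp`). -/

namespace UDGCmp

/-- The sequence `y 0, z 0, y 1, z 1, …`. -/
def mix (y z : ℕ → ℤ) (j : ℕ) : ℤ := if j % 2 = 0 then y (j / 2) else z (j / 2)

theorem mix_even (y z : ℕ → ℤ) (j : ℕ) : mix y z (2 * j) = y j := by
  have h1 : 2 * j % 2 = 0 := by omega
  have h2 : 2 * j / 2 = j := by omega
  rw [mix, if_pos h1, h2]

theorem mix_odd (y z : ℕ → ℤ) (j : ℕ) : mix y z (2 * j + 1) = z j := by
  have h1 : ¬ (2 * j + 1) % 2 = 0 := by omega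
  have h2 : (2 * j + 1) / 2 = j := by omega
  rw [mix, if_neg h1, h2]

/-- The tree with odd numbers and negated leaves. -/
theorem exists_neg (T : CTree) : ∃ R : CTree, R.depth ≤ T.depth ∧
    ∀ x y z : ℕ → ℤ, (R.eval x (mix y z) = true ↔ ¬ T.eval x z = true) := by
  induction T with
  | leaf b => exact ⟨CTree.leaf (!b), le_rfl, fun x y z => by cases b <;> simp [CTree.eval]⟩
  | node i j s t hs ht =>
    obtain ⟨s', hs1, hs2⟩ := hs
    obtain ⟨t', ht1, ht2⟩ := ht
    refine ⟨CTree.node i (2 * j + 1) s' t', ?_, fun x y z => ?_⟩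
    · simp only [CTree.depth]; omega
    · simp only [CTree.eval, mix_odd]
      by_cases h : x i ≤ z j
      · rw [if_pos h, if_pos h]; exact hs2 x y z
      · rw [if_neg h, if_neg h]; exact ht2 x y z

/-- The tree with even numbers, continued with `R` at the leaves `true`. -/
theorem exists_ext (R T : CTree) : ∃ T2 : CTree, T2.depth ≤ T.depth + R.depth ∧
    ∀ x y z : ℕ → ℤ, (T2.eval x (mix y z) = true ↔
      (T.eval x y = true ∧ R.eval x (mix y z) = true)) := by
  induction T with
  | leaf b =>
    cases b with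
    | true => exact ⟨R, by omega, fun x y z => by simp [CTree.eval]⟩
    | false => exact ⟨CTree.leaf false, by simp only [CTree.depth]; omega,
        fun x y z => by simp [CTree.eval]⟩
  | node i j s t hs ht =>
    obtain ⟨s', hs1, hs2⟩ := hs
    obtain ⟨t', ht1, ht2⟩ := ht
    refine ⟨CTree.node i (2 * j) s' t', ?_, fun x y z => ?_⟩
    · simp only [CTree.depth]; omega
    · simp only [CTree.eval, mix_even]
      by_cases h : x i ≤ y j
      · rw [if_pos h, if_pos h]; exact hs2 x y z
      · rw [if_neg h, if_neg h]; exact ht2 x y z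

/-- First `T` with the numbers `2 j` of the second label; at a leaf `true` again `T` with the numbers
`2 j + 1` and negated leaves; at a leaf `false` the answer is `false`. -/
theorem exists_comb (T : CTree) : ∃ T2 : CTree, T2.depth ≤ 2 * T.depth ∧
    ∀ x y z : ℕ → ℤ, (T2.eval x (mix y z) = true ↔ (T.eval x y = true ∧ ¬ T.eval x z = true)) := by
  obtain ⟨R, hR1, hR2⟩ := exists_neg T
  obtain ⟨T2, h1, h2⟩ := exists_ext R T
  refine ⟨T2, by omega, fun x y z => ?_⟩
  rw [h2 x y z, hR2 x y z]

end UDGCmp
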