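import Mathlib

/-!
# Unit disk graphs and comparison trees: definitions

A comparison tree decides by comparing numbers of the first label with numbers of the second label.
-/

namespace UDGCmp

/-- A comparison tree. The node `node i j s t` asks whether the `i`-th number of the first label is at
most the `j`-th number of the second label and continues with `s` (yes) or `t` (no). -/
inductive CTree where
  | leaf : Bool → CTree
  | node : ℕ → ℕ → CTree → CTree → CTree

/-- The largest number of comparisons on a branch. -/
def CTree.depth : CTree → ℕ
  | CTree.leaf _ => 0
  | CTree.node _ _ s t => max s.depth t.depth + 1

/-- The answer of a comparison tree for two labels; a label is an infinite sequence of integers. -/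
def CTree.eval : CTree → (ℕ → ℤ) → (ℕ → ℤ) → Bool
  | CTree.leaf b, _, _ => b
  | CTree.node i j s t, x, y => if x i ≤ y j then s.eval x y else t.eval x y

end UDGCmp
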