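import Pool.Agent.Lib.UDGCmp.Defs

/-! The grid (module of `UDGCmp`). -/

namespace UDGCmp

/-- The number of incidences: for all `a < m`, `b < m²`, `x < m` the point `(x, a x + b)`. -/
theorem grid_card (m : ℕ) :
    m ^ 4 ≤ (((Finset.range m ×ˢ Finset.range (2 * m ^ 2)) ×ˢ
      (Finset.range m ×ˢ Finset.range (m ^ 2))).filter fun q =>
        q.2.1 * q.1.1 + q.2.2 ≤ q.1.2 ∧ ¬ q.2.1 * q.1.1 + (q.2.2 + 1) ≤ q.1.2).card := by
  have hc : (Finset.range m ×ˢ (Finset.range m ×ˢ Finset.range (m ^ 2))).card = m ^ 4 := by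
    rw [Finset.card_product, Finset.card_product, Finset.card_range, Finset.card_range]; ring
  rw [← hc]
  refine Finset.card_le_card_of_injOn
    (fun t : ℕ × (ℕ × ℕ) => ((t.1, t.2.1 * t.1 + t.2.2), (t.2.1, t.2.2))) ?_ ?_
  · rintro ⟨x, a, b⟩ ht
    simp only [Finset.coe_product, Finset.coe_range, Set.mem_prod, Set.mem_Iio, Finset.mem_coe,
      Finset.mem_product, Finset.mem_range] at ht
    obtain ⟨hx, ha, hb⟩ := ht
    simp only [Finset.coe_filter, Finset.mem_product, Finset.mem_range, Set.mem_setOf_eq]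
    have h1 : a * x ≤ m * m := Nat.mul_le_mul ha.le hx.le
    have h2 : m ^ 2 = m * m := sq m
    refine ⟨⟨⟨hx, ?_⟩, ha, hb⟩, le_rfl, ?_⟩
    · omega
    · omega
  · rintro ⟨x, a, b⟩ _ ⟨x', a', b'⟩ _ h
    simp only [Prod.mk.injEq] at h
    obtain ⟨⟨h1, _⟩, h3, h4⟩ := h
    simp only [Prod.mk.injEq]
    exact ⟨h1, h3, h4⟩

/-- Two points are on at most one line. -/
theorem grid_rect (x y x' y' a b a' b' : ℕ) (h1 : a * x + b = y) (h2 : a * x' + b = y')
    (h3 : a' * x + b' = y) (h4 : a' * x' + b' = y') : (x, y) = (x', y') ∨ (a, b) = (a', b') := by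
  by_cases hx : x = x'
  · left; subst hx; rw [← h1, ← h2]
  · right
    zify at h1 h2 h3 h4
    have h5 : ((a : ℤ) - a') * (x - x') = 0 := by linear_combination h1 - h2 - h3 + h4
    have h6 : (x : ℤ) - x' ≠ 0 := fun h => hx (by omega)
    have h7 : (a : ℤ) - a' = 0 := (mul_eq_zero.1 h5).resolve_right h6
    have h8 : a = a' := by omega
    subst h8
    have h9 : b = b' := by
      have : (b : ℤ) = b' := by linear_combination h1 - h3
      exact_mod_cast this
    rw [h9]

end UDGCmp
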