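import Mathlib

/-! The numerical estimate (module of `UDGCmp`). -/

namespace UDGCmp

/-- Fifth powers: `243 * 2 ^ (40 T) * (16/15) ^ (15 k + 10) < 2 ^ (5 k)`, from `40 T ≤ 3 k + 4`,
`(16/15) ^ 15 < 2.64`, `(16/15) ^ 10 < 1.91` and `k ≥ 22`. -/
theorem num {k T : ℕ} (hk : 22 ≤ k) (hT : 40 * T ≤ 3 * k + 4) :
    3 * (16 : ℝ) ^ (2 * T) * (16 / 15 : ℝ) ^ (3 * k + 2) < (2 : ℝ) ^ k := by
  have h5 : (3 * (16 : ℝ) ^ (2 * T) * (16 / 15 : ℝ) ^ (3 * k + 2)) ^ 5 < ((2 : ℝ) ^ k) ^ 5 := by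
    have e1 : (3 * (16 : ℝ) ^ (2 * T) * (16 / 15 : ℝ) ^ (3 * k + 2)) ^ 5 =
        243 * (2 : ℝ) ^ (40 * T) * (((16 / 15 : ℝ) ^ 15) ^ k * (16 / 15 : ℝ) ^ 10) := by
      have a1 : ((16 : ℝ) ^ (2 * T)) ^ 5 = (2 : ℝ) ^ (40 * T) := by
        rw [show (16 : ℝ) = 2 ^ 4 by norm_num, ← pow_mul, ← pow_mul]
        congr 1; ring
      have a2 : ((16 / 15 : ℝ) ^ (3 * k + 2)) ^ 5 = ((16 / 15 : ℝ) ^ 15) ^ k * (16 / 15 : ℝ) ^ 10 := by
        rw [← pow_mul, ← pow_mul, ← pow_add]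
        congr 1; ring
      rw [mul_pow, mul_pow, a1, a2]; norm_num
    rw [e1]
    have b1 : (2 : ℝ) ^ (40 * T) ≤ (2 : ℝ) ^ (3 * k + 4) :=
      pow_le_pow_right₀ (by norm_num) hT
    have b2 : (2 : ℝ) ^ (3 * k + 4) = 16 * 8 ^ k := by
      rw [pow_add, pow_mul]; norm_num; ring
    have b3 : ((16 / 15 : ℝ) ^ 15) ≤ 264 / 100 := by norm_num
    have b4 : ((16 / 15 : ℝ) ^ 15) ^ k ≤ (264 / 100 : ℝ) ^ k :=
      pow_le_pow_left₀ (by positivity) b3 k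
    have b5 : (16 / 15 : ℝ) ^ 10 ≤ 191 / 100 := by norm_num
    have c1 : ((2 : ℝ) ^ k) ^ 5 = 32 ^ k := by
      rw [← pow_mul, mul_comm, pow_mul]; norm_num
    have c2 : (8 : ℝ) ^ k * (264 / 100) ^ k = (2112 / 100) ^ k := by
      rw [← mul_pow]; norm_num
    have c3 : (32 : ℝ) ^ k = (2112 / 100) ^ k * (3200 / 2112) ^ k := by
      rw [← mul_pow]; norm_num
    have c4 : (3200 / 2112 : ℝ) ^ 22 ≤ (3200 / 2112 : ℝ) ^ k :=
      pow_le_pow_right₀ (by norm_num) hk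
    have c5 : (243 * 16 * (191 / 100) : ℝ) < (3200 / 2112 : ℝ) ^ 22 := by norm_num
    rw [c1]
    have hp : (0 : ℝ) < (2112 / 100) ^ k := by positivity
    calc 243 * (2 : ℝ) ^ (40 * T) * (((16 / 15 : ℝ) ^ 15) ^ k * (16 / 15 : ℝ) ^ 10)
        ≤ 243 * (16 * 8 ^ k) * ((264 / 100) ^ k * (191 / 100)) := by
          rw [← b2]
          gcongr
      _ = (243 * 16 * (191 / 100)) * (8 ^ k * (264 / 100) ^ k) := by ring
      _ = (243 * 16 * (191 / 100)) * (2112 / 100) ^ k := by rw [c2]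
      _ < (3200 / 2112) ^ k * (2112 / 100) ^ k :=
          mul_lt_mul_of_pos_right (c5.trans_le c4) hp
      _ = 32 ^ k := by rw [c3, mul_comm]
  exact lt_of_pow_lt_pow_left₀ 5 (by positivity) h5

end UDGCmp
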