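import Pool.Agent.Lib.UDGCmp.Zar
import Pool.Agent.Lib.UDGCmp.Comb
import Pool.Agent.Lib.UDGCmp.Cfg
import Pool.Agent.Lib.UDGCmp.Grid
import Pool.Agent.Lib.UDGCmp.Num

/-! The theorem (module of `UDGCmp`). -/

namespace UDGCmp

private theorem div_aux {a b N : ℕ} (hb : b < N) : (a * N + b) / N = a ∧ (a * N + b) % N = b := by
  have hN : 0 < N := by omega
  constructor
  · rw [Nat.add_comm, Nat.add_mul_div_right _ _ hN, Nat.div_eq_of_lt hb, Nat.zero_add]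
  · rw [Nat.add_comm, Nat.add_mul_mod_self_right, Nat.mod_eq_of_lt hb]

/-- `k = (log₂ n - 2) / 3`, `m = 2 ^ k`; the vertices `v < 2 m³` are the points `P (v / (2 m²)) (v % (2 m²))`,
the next `m (m² + 1)` the lines `C (w / (m² + 1)) (w % (m² + 1))`. -/
theorem main {n : ℕ} (hn : 2 ^ 70 ≤ n) :
    ∃ p : Fin n → EuclideanSpace ℝ (Fin 2), ∀ T : CTree, 40 * T.depth ≤ Nat.log 2 n →
      ∀ lab : Fin n → ℕ → ℤ,
        ¬ ∀ u v, u ≠ v → (T.eval (lab u) (lab v) = true ↔ dist (p u) (p v) ≤ 1) := by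
  have hn0 : n ≠ 0 := by
    have : 0 < 2 ^ 70 := by positivity
    omega
  have hlog : 70 ≤ Nat.log 2 n := Nat.le_log_of_pow_le (by norm_num) hn
  obtain ⟨k, hk⟩ : ∃ k, k = (Nat.log 2 n - 2) / 3 := ⟨_, rfl⟩
  have hk22 : 22 ≤ k := by omega
  have hk4 : Nat.log 2 n ≤ 3 * k + 4 := by omega
  have hkn : 2 ^ (3 * k + 2) ≤ n :=
    (Nat.pow_le_pow_right (by norm_num) (by omega)).trans (Nat.pow_log_le_self 2 hn0)
  obtain ⟨m, hm⟩ : ∃ m, m = 2 ^ k := ⟨_, rfl⟩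
  have hm0 : 0 < m := by rw [hm]; positivity
  have hm3 : 4 * m ^ 3 = 2 ^ (3 * k + 2) := by
    rw [hm]; ring
  have hmm : m ≤ m ^ 3 := Nat.le_self_pow (by norm_num) m
  obtain ⟨P, C, hPC⟩ := exists_cfg m
  obtain ⟨p', hp'⟩ : ∃ p' : ℕ → EuclideanSpace ℝ (Fin 2), p' = fun i =>
      if i < 2 * m ^ 3 then P (i / (2 * m ^ 2)) (i % (2 * m ^ 2))
      else C ((i - 2 * m ^ 3) / (m ^ 2 + 1)) ((i - 2 * m ^ 3) % (m ^ 2 + 1)) := ⟨_, rfl⟩
  refine ⟨fun v => p' v, ?_⟩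
  intro T hT lab hlab
  obtain ⟨lab', hlab'⟩ : ∃ lab' : ℕ → ℕ → ℤ, lab' = fun i =>
      if h : i < n then lab ⟨i, h⟩ else fun _ => 0 := ⟨_, rfl⟩
  have hL : ∀ i < n, ∀ j < n, i ≠ j →
      (T.eval (lab' i) (lab' j) = true ↔ dist (p' i) (p' j) ≤ 1) := by
    intro i hi j hj hij
    have h1 : lab' i = lab ⟨i, hi⟩ := by rw [hlab']; simp [hi]
    have h2 : lab' j = lab ⟨j, hj⟩ := by rw [hlab']; simp [hj]
    rw [h1, h2]
    exact hlab ⟨i, hi⟩ ⟨j, hj⟩ (fun h => hij (Fin.mk.inj h))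
  obtain ⟨T2, hT2, hev⟩ := exists_comb T
  -- indices of points and lines
  have hip : ∀ x < m, ∀ y < 2 * m ^ 2, x * (2 * m ^ 2) + y < 2 * m ^ 3 := by
    intro x hx y hy
    have h1 : (x + 1) * (2 * m ^ 2) ≤ m * (2 * m ^ 2) := Nat.mul_le_mul_right _ hx
    have h2 : m * (2 * m ^ 2) = 2 * m ^ 3 := by ring
    have h3 : (x + 1) * (2 * m ^ 2) = x * (2 * m ^ 2) + 2 * m ^ 2 := by ring
    omega
  have hic : ∀ a < m, ∀ b ≤ m ^ 2, 2 * m ^ 3 + (a * (m ^ 2 + 1) + b) < n := by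
    intro a ha b hb
    have h1 : (a + 1) * (m ^ 2 + 1) ≤ m * (m ^ 2 + 1) := Nat.mul_le_mul_right _ ha
    have h2 : m * (m ^ 2 + 1) = m ^ 3 + m := by ring
    have h3 : (a + 1) * (m ^ 2 + 1) = a * (m ^ 2 + 1) + (m ^ 2 + 1) := by ring
    omega
  have hpP : ∀ x < m, ∀ y < 2 * m ^ 2, p' (x * (2 * m ^ 2) + y) = P x y := by
    intro x hx y hy
    rw [hp']
    simp only [hip x hx y hy, if_true]
    rw [(div_aux hy).1, (div_aux hy).2]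
  have hpC : ∀ a < m, ∀ b ≤ m ^ 2, p' (2 * m ^ 3 + (a * (m ^ 2 + 1) + b)) = C a b := by
    intro a ha b hb
    rw [hp']
    have h1 : ¬ 2 * m ^ 3 + (a * (m ^ 2 + 1) + b) < 2 * m ^ 3 := by omega
    simp only [h1, if_false, Nat.add_sub_cancel_left]
    rw [(div_aux (Nat.lt_succ_of_le hb)).1, (div_aux (Nat.lt_succ_of_le hb)).2]
  have hTe : ∀ x < m, ∀ y < 2 * m ^ 2, ∀ a < m, ∀ b ≤ m ^ 2,
      (T.eval (lab' (x * (2 * m ^ 2) + y)) (lab' (2 * m ^ 3 + (a * (m ^ 2 + 1) + b))) = true ↔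
        a * x + b ≤ y) := by
    intro x hx y hy a ha b hb
    have h1 := hip x hx y hy
    rw [hL _ (by omega) _ (hic a ha b hb) (by omega), hpP x hx y hy, hpC a ha b hb]
    exact hPC x y a b hx.le hy.le ha.le hb
  let X : ℕ × ℕ → ℕ → ℤ := fun q => lab' (q.1 * (2 * m ^ 2) + q.2)
  let Y : ℕ × ℕ → ℕ → ℤ := fun r => mix (lab' (2 * m ^ 3 + (r.1 * (m ^ 2 + 1) + r.2)))
    (lab' (2 * m ^ 3 + (r.1 * (m ^ 2 + 1) + (r.2 + 1))))
  let A : Finset (ℕ × ℕ) := Finset.range m ×ˢ Finset.range (2 * m ^ 2)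
  let B : Finset (ℕ × ℕ) := Finset.range m ×ˢ Finset.range (m ^ 2)
  have hXY : ∀ q ∈ A, ∀ r ∈ B, (T2.eval (X q) (Y r) = true ↔
      (r.1 * q.1 + r.2 ≤ q.2 ∧ ¬ r.1 * q.1 + (r.2 + 1) ≤ q.2)) := by
    intro q hq r hr
    simp only [A, B, Finset.mem_product, Finset.mem_range] at hq hr
    rw [hev, hTe q.1 hq.1 q.2 hq.2 r.1 hr.1 r.2 hr.2.le,
      hTe q.1 hq.1 q.2 hq.2 r.1 hr.1 (r.2 + 1) hr.2]
  have hA : A.card = 2 * m ^ 3 := by
    simp only [A, Finset.card_product, Finset.card_range]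
    ring
  have hB : B.card = m ^ 3 := by
    simp only [B, Finset.card_product, Finset.card_range]
    ring
  have hz := zar T2 (3 * k + 2) A B X Y (by rw [hA, hB, ← hm3]; omega) (by
    intro a ha a' ha' b hb b' hb' hne hne' ⟨h1, h2, h3, h4⟩
    rw [hXY a ha b hb] at h1
    rw [hXY a ha b' hb'] at h2
    rw [hXY a' ha' b hb] at h3
    rw [hXY a' ha' b' hb'] at h4
    rcases grid_rect a.1 a.2 a'.1 a'.2 b.1 b.2 b'.1 b'.2 (by omega) (by omega) (by omega)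
      (by omega) with h | h
    · exact hne h
    · exact hne' h)
  have hcard : m ^ 4 ≤ ((A ×ˢ B).filter fun q => T2.eval (X q.1) (Y q.2) = true).card := by
    refine (grid_card m).trans (le_of_eq ?_)
    congr 1
    apply Finset.filter_congr
    intro q hq
    rw [Finset.mem_product] at hq
    exact (hXY q.1 hq.1 q.2 hq.2).symm
  have hnum := num (k := k) (T := T.depth) hk22 (by omega)
  have hd : (16 : ℝ) ^ T2.depth ≤ (16 : ℝ) ^ (2 * T.depth) :=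
    pow_le_pow_right₀ (by norm_num) hT2
  have hmR : (m : ℝ) = (2 : ℝ) ^ k := by rw [hm]; push_cast; rfl
  have hmpos : (0 : ℝ) < (m : ℝ) ^ 3 := by positivity
  have h1 : ((m : ℝ)) ^ 4 ≤ 3 * (m : ℝ) ^ 3 * (16 : ℝ) ^ T2.depth * (16 / 15 : ℝ) ^ (3 * k + 2) := by
    have h2 : ((m ^ 4 : ℕ) : ℝ) ≤
        (((A ×ˢ B).filter fun q => T2.eval (X q.1) (Y q.2) = true).card : ℝ) := by
      exact_mod_cast hcard
    push_cast at h2
    refine (h2.trans hz).trans (le_of_eq ?_)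
    rw [hA, hB]
    push_cast
    ring
  have h3 : 3 * (m : ℝ) ^ 3 * (16 : ℝ) ^ T2.depth * (16 / 15 : ℝ) ^ (3 * k + 2) ≤
      (m : ℝ) ^ 3 * (3 * (16 : ℝ) ^ (2 * T.depth) * (16 / 15 : ℝ) ^ (3 * k + 2)) := by
    have : 3 * (m : ℝ) ^ 3 * (16 : ℝ) ^ T2.depth * (16 / 15 : ℝ) ^ (3 * k + 2) =
        (m : ℝ) ^ 3 * (3 * (16 : ℝ) ^ T2.depth * (16 / 15 : ℝ) ^ (3 * k + 2)) := by ring
    rw [this]
    gcongr
  have h4 : (m : ℝ) ^ 3 * (3 * (16 : ℝ) ^ (2 * T.depth) * (16 / 15 : ℝ) ^ (3 * k + 2)) <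
      (m : ℝ) ^ 3 * (2 : ℝ) ^ k := by
    exact mul_lt_mul_of_pos_left hnum hmpos
  have h5 : (m : ℝ) ^ 3 * (2 : ℝ) ^ k = (m : ℝ) ^ 4 := by
    rw [← hmR]; ring
  linarith

end UDGCmp
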