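import Pool.Agent.Lib.UDGCmp.Defs

/-! Splitting a finite set by a key (module of `UDGCmp`). -/

namespace UDGCmp

/-- The `m` smallest elements. Induction on `m` (take an element of smallest key among the others). -/
theorem exists_lower {γ : Type*} [DecidableEq γ] (U : Finset γ) (k : γ → ℤ) (m : ℕ)
    (hm : m ≤ U.card) :
    ∃ W ⊆ U, W.card = m ∧ ∀ w ∈ W, ∀ u ∈ U, u ∉ W → k w ≤ k u := by
  induction m with
  | zero => exact ⟨∅, Finset.empty_subset _, rfl, fun w hw => absurd hw (Finset.notMem_empty w)⟩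
  | succ m ih =>
    obtain ⟨W, hWU, hWc, hW⟩ := ih (by omega)
    have hne : (U \ W).Nonempty := by
      rw [← Finset.card_pos, Finset.card_sdiff_of_subset hWU]; omega
    obtain ⟨c, hc, hmin⟩ := Finset.exists_min_image (U \ W) k hne
    rw [Finset.mem_sdiff] at hc
    refine ⟨insert c W, Finset.insert_subset hc.1 hWU, ?_, ?_⟩
    · rw [Finset.card_insert_of_notMem hc.2, hWc]
    · intro w hw u hu hun
      rw [Finset.mem_insert, not_or] at hun
      rcases Finset.mem_insert.1 hw with rfl | hw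
      · exact hmin u (Finset.mem_sdiff.2 ⟨hu, hun.2⟩)
      · exact hW w hw u hu hun.2

/-- For `A` (keys `2 f a`) and `B` (keys `2 g b + 1`): `exists_lower` for `A.disjSum B`. -/
theorem halve {α β : Type*} [DecidableEq α] [DecidableEq β] (A : Finset α) (B : Finset β)
    (f : α → ℤ) (g : β → ℤ) (H : ℕ) (hN : A.card + B.card ≤ 2 * H) :
    ∃ A1 ⊆ A, ∃ B1 ⊆ B, A1.card + B1.card ≤ H ∧ (A \ A1).card + (B \ B1).card ≤ H ∧
      (∀ a ∈ A1, ∀ b ∈ B \ B1, f a ≤ g b) ∧ (∀ a ∈ A \ A1, ∀ b ∈ B1, ¬ f a ≤ g b) := by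
  classical
  let k : α ⊕ β → ℤ := Sum.elim (fun a => 2 * f a) (fun b => 2 * g b + 1)
  have hcard : (A.disjSum B).card = A.card + B.card := Finset.card_disjSum A B
  obtain ⟨W, hWU, hWc, hW⟩ := exists_lower (A.disjSum B) k ((A.card + B.card) / 2)
    (by rw [hcard]; omega)
  have hsplit : W.card = (W.toLeft).card + (W.toRight).card := (Finset.card_toLeft_add_card_toRight).symm
  have hLA : W.toLeft ⊆ A := by
    intro a ha
    rw [Finset.mem_toLeft] at ha
    exact Finset.inl_mem_disjSum.1 (hWU ha)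
  have hRB : W.toRight ⊆ B := by
    intro b hb
    rw [Finset.mem_toRight] at hb
    exact Finset.inr_mem_disjSum.1 (hWU hb)
  refine ⟨W.toLeft, hLA, W.toRight, hRB, by omega, ?_, ?_, ?_⟩
  · rw [Finset.card_sdiff_of_subset hLA, Finset.card_sdiff_of_subset hRB]
    have h1 := Finset.card_le_card hLA
    have h2 := Finset.card_le_card hRB
    omega
  · intro a ha b hb
    rw [Finset.mem_toLeft] at ha
    rw [Finset.mem_sdiff, Finset.mem_toRight] at hb
    have h := hW (Sum.inl a) ha (Sum.inr b) (Finset.inr_mem_disjSum.2 hb.1) hb.2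
    simp only [k, Sum.elim_inl, Sum.elim_inr] at h
    omega
  · intro a ha b hb
    rw [Finset.mem_sdiff, Finset.mem_toLeft] at ha
    rw [Finset.mem_toRight] at hb
    have h := hW (Sum.inr b) hb (Sum.inl a) (Finset.inl_mem_disjSum.2 ha.1) ha.2
    simp only [k, Sum.elim_inl, Sum.elim_inr] at h
    omega

end UDGCmp
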