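import Pool.Agent.Lib.UDGCmp.Defs

/-!
# Rank trees

A rank tree decides by asking how many entries of a list in one label are at most a number in the other
label (a predecessor query, as in the decoder of the hand-in `CubeRoot`).
-/

namespace UDGCmp

/-- A label: an infinite sequence of integers and an infinite sequence of finite lists of integers. -/
structure Lab where
  num : ℕ → ℤ
  lst : ℕ → List ℤ

/-- A rank tree: `node d i j s` asks for the number `r` of entries of the `i`-th list of the first label
which are at most the `j`-th number of the second label (`d = true`; for `d = false` the list is taken
from the second and the number from the first label) and continues with `s r`. -/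
inductive RTree where
  | leaf : Bool → RTree
  | node : Bool → ℕ → ℕ → (ℕ → RTree) → RTree

/-- The number of entries of the list `l` which are at most `z`. -/
def rank (l : List ℤ) (z : ℤ) : ℕ := l.countP fun e => decide (e ≤ z)

/-- The answer of a rank tree for two labels. -/
def RTree.eval : RTree → Lab → Lab → Bool
  | RTree.leaf b, _, _ => b
  | RTree.node d i j s, x, y =>
    if d = true then (s (rank (x.lst i) (y.num j))).eval x y
    else (s (rank (y.lst i) (x.num j))).eval x y

/-- Every branch has at most `t` nodes. -/
def RTree.within : RTree → ℕ → Prop
  | RTree.leaf _, _ => True
  | RTree.node _ _ _ _, 0 => False
  | RTree.node _ _ _ s, t + 1 => ∀ r, (s r).within t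

end UDGCmp
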