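import Pool.Agent.Lib.UDGCmp.RDefs

/-! Binary search: rank trees by comparison trees (module of `UDGCmp`). -/

namespace UDGCmp

theorem rank_mono (l : List ℤ) {y z : ℤ} (h : y ≤ z) : rank l y ≤ rank l z := by
  unfold rank
  apply List.countP_mono_left
  intro e _ he
  simp only [decide_eq_true_eq] at he ⊢
  omega

theorem rank_low (l : List ℤ) : ∃ B : ℤ, ∀ z < B, rank l z = 0 := by
  induction l with
  | nil => exact ⟨0, fun z _ => rfl⟩
  | cons e l ih =>
    obtain ⟨B, hB⟩ := ih
    refine ⟨min B e, fun z hz => ?_⟩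
    have h1 : z < B := lt_of_lt_of_le hz (min_le_left _ _)
    have h2 : z < e := lt_of_lt_of_le hz (min_le_right _ _)
    have h3 := hB z h1
    unfold rank at h3 ⊢
    rw [List.countP_cons, h3]
    have : ¬ e ≤ z := by omega
    simp [this]

theorem rank_le (l : List ℤ) (z : ℤ) : rank l z ≤ l.length := List.countP_le_length

/-- A threshold for `r < rank l y`. -/
theorem exists_thr (l : List ℤ) (r : ℕ) (M : ℤ) :
    ∃ s : ℤ, ∀ y < M, (s ≤ y ↔ r < rank l y) := by
  by_cases h : ∃ z : ℤ, z < M ∧ r < rank l z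
  · obtain ⟨z0, hz0, hr0⟩ := h
    obtain ⟨B, hB⟩ := rank_low l
    obtain ⟨s, hs, hmin⟩ := Int.exists_least_of_bdd (P := fun z => r < rank l z)
      ⟨B, fun z hz => by
        by_contra hlt
        have := hB z (by omega)
        omega⟩ ⟨z0, hr0⟩
    refine ⟨s, fun y _ => ⟨fun hsy => lt_of_lt_of_le hs (rank_mono l hsy), fun hr => hmin y hr⟩⟩
  · refine ⟨M, fun y hy => ⟨fun hMy => by omega, fun hr => ?_⟩⟩
    exact absurd ⟨y, hy, hr⟩ h

/-- Binary search for `c`, the questions being `r < c`. -/
def bs (i j : ℕ → ℕ) (S : ℕ → CTree) : ℕ → ℕ → CTree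
  | 0, lo => S lo
  | K + 1, lo => CTree.node (i (lo + 2 ^ K - 1)) (j (lo + 2 ^ K - 1)) (bs i j S K (lo + 2 ^ K))
      (bs i j S K lo)

/-- Binary search for `c`, the questions being `¬ r < c`. -/
def bs' (i j : ℕ → ℕ) (S : ℕ → CTree) : ℕ → ℕ → CTree
  | 0, lo => S lo
  | K + 1, lo => CTree.node (i (lo + 2 ^ K - 1)) (j (lo + 2 ^ K - 1)) (bs' i j S K lo)
      (bs' i j S K (lo + 2 ^ K))

theorem bs_depth (i j : ℕ → ℕ) (S : ℕ → CTree) (d : ℕ) (hS : ∀ r, (S r).depth ≤ d) (K : ℕ) :
    ∀ lo, (bs i j S K lo).depth ≤ K + d := by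
  induction K with
  | zero => intro lo; simpa [bs] using hS lo
  | succ K ih =>
    intro lo
    have h1 := ih (lo + 2 ^ K)
    have h2 := ih lo
    simp only [bs, CTree.depth]
    omega

theorem bs'_depth (i j : ℕ → ℕ) (S : ℕ → CTree) (d : ℕ) (hS : ∀ r, (S r).depth ≤ d) (K : ℕ) :
    ∀ lo, (bs' i j S K lo).depth ≤ K + d := by
  induction K with
  | zero => intro lo; simpa [bs'] using hS lo
  | succ K ih =>
    intro lo
    have h1 := ih (lo + 2 ^ K)
    have h2 := ih lo
    simp only [bs', CTree.depth]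
    omega

theorem bs_eval (i j : ℕ → ℕ) (S : ℕ → CTree) (x y : ℕ → ℤ) (c : ℕ)
    (h : ∀ r, x (i r) ≤ y (j r) ↔ r < c) (K : ℕ) : ∀ lo, lo ≤ c → c < lo + 2 ^ K →
    (bs i j S K lo).eval x y = (S c).eval x y := by
  induction K with
  | zero =>
    intro lo h1 h2
    have : lo = c := by
      rw [pow_zero] at h2
      omega
    rw [bs, this]
  | succ K ih =>
    intro lo h1 h2
    rw [pow_succ] at h2
    have hp : 0 < 2 ^ K := by positivity
    simp only [bs, CTree.eval]
    by_cases hc : lo + 2 ^ K - 1 < c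
    · rw [if_pos ((h _).2 hc)]
      exact ih _ (by omega) (by omega)
    · rw [if_neg (fun h' => hc ((h _).1 h'))]
      exact ih _ h1 (by omega)

theorem bs'_eval (i j : ℕ → ℕ) (S : ℕ → CTree) (x y : ℕ → ℤ) (c : ℕ)
    (h : ∀ r, x (i r) ≤ y (j r) ↔ ¬ r < c) (K : ℕ) : ∀ lo, lo ≤ c → c < lo + 2 ^ K →
    (bs' i j S K lo).eval x y = (S c).eval x y := by
  induction K with
  | zero =>
    intro lo h1 h2
    have : lo = c := by
      rw [pow_zero] at h2
      omega
    rw [bs', this]
  | succ K ih =>
    intro lo h1 h2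
    rw [pow_succ] at h2
    have hp : 0 < 2 ^ K := by positivity
    simp only [bs', CTree.eval]
    by_cases hc : lo + 2 ^ K - 1 < c
    · rw [if_neg (fun h' => (h _).1 h' hc)]
      exact ih _ (by omega) (by omega)
    · rw [if_pos ((h _).2 hc)]
      exact ih _ h1 (by omega)

theorem exists_sim {n k : ℕ} (lab : Fin n → Lab) (hk : ∀ v i, ((lab v).lst i).length ≤ k) :
    ∃ F : Fin n → ℕ → ℤ, ∀ (R : RTree) (t : ℕ), R.within t →
      ∃ T : CTree, T.depth ≤ t * Nat.size k ∧
        ∀ u v, T.eval (F u) (F v) = R.eval (lab u) (lab v) := by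
  classical
  -- an upper bound for the `j`-th numbers
  have hM : ∀ j : ℕ, ∃ M : ℤ, ∀ v : Fin n, (lab v).num j < M := by
    intro j
    obtain ⟨M, hM⟩ := (Finset.univ.image fun v : Fin n => (lab v).num j).bddAbove
    refine ⟨M + 1, fun v => ?_⟩
    have := hM (Finset.mem_coe.2 (Finset.mem_image_of_mem _ (Finset.mem_univ v)))
    omega
  choose M hM using hM
  choose thr hthr using exists_thr
  let F : Fin n → ℕ → ℤ := fun v m =>
    if m % 3 = 0 then (lab v).num (m / 3)
    else if m % 3 = 1 then (lab v).num (m / 3) + 1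
    else thr ((lab v).lst (m / 3).unpair.1) (m / 3).unpair.2.unpair.1 (M (m / 3).unpair.2.unpair.2)
  have hF0 : ∀ v j, F v (3 * j) = (lab v).num j := by
    intro v j
    have h1 : 3 * j % 3 = 0 := by omega
    have h2 : 3 * j / 3 = j := by omega
    simp only [F, h1, h2, if_true]
  have hF1 : ∀ v j, F v (3 * j + 1) = (lab v).num j + 1 := by
    intro v j
    have h1 : ¬ (3 * j + 1) % 3 = 0 := by omega
    have h3 : (3 * j + 1) % 3 = 1 := by omega
    have h2 : (3 * j + 1) / 3 = j := by omega
    show (if (3 * j + 1) % 3 = 0 then _ else _) = _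
    rw [if_neg h1, if_pos h3, h2]
  have hF2 : ∀ v i r j, F v (3 * (Nat.pair i (Nat.pair r j)) + 2) =
      thr ((lab v).lst i) r (M j) := by
    intro v i r j
    have h1 : ¬ (3 * (Nat.pair i (Nat.pair r j)) + 2) % 3 = 0 := by omega
    have h3 : ¬ (3 * (Nat.pair i (Nat.pair r j)) + 2) % 3 = 1 := by omega
    have h2 : (3 * (Nat.pair i (Nat.pair r j)) + 2) / 3 = Nat.pair i (Nat.pair r j) := by omega
    simp only [F, h1, h2, h3, if_false, Nat.unpair_pair]
  refine ⟨F, ?_⟩
  have hsz : k < 2 ^ Nat.size k := Nat.lt_size_self k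
  intro R
  induction R with
  | leaf b =>
    intro t _
    exact ⟨CTree.leaf b, by simp [CTree.depth], fun u v => rfl⟩
  | node d i j s ih =>
    intro t ht
    cases t with
    | zero => exact absurd ht (by simp [RTree.within])
    | succ t =>
      simp only [RTree.within] at ht
      choose S hS1 hS2 using fun r => ih r t (ht r)
      cases d with
      | true =>
        refine ⟨bs (fun r => 3 * (Nat.pair i (Nat.pair r j)) + 2) (fun _ => 3 * j) S (Nat.size k) 0,
          ?_, ?_⟩
        · have := bs_depth (fun r => 3 * (Nat.pair i (Nat.pair r j)) + 2) (fun _ => 3 * j) S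
            (t * Nat.size k) hS1 (Nat.size k) 0
          have e : (t + 1) * Nat.size k = t * Nat.size k + Nat.size k := Nat.succ_mul _ _
          omega
        · intro u v
          have hc := bs_eval (fun r => 3 * (Nat.pair i (Nat.pair r j)) + 2) (fun _ => 3 * j) S
            (F u) (F v) (rank ((lab u).lst i) ((lab v).num j)) (by
              intro r
              rw [hF2, hF0]
              exact hthr _ _ _ _ (hM j v)) (Nat.size k) 0 (Nat.zero_le _) (by
              have := (rank_le ((lab u).lst i) ((lab v).num j)).trans (hk u i)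
              omega)
          rw [hc, hS2]
          simp [RTree.eval]
      | false =>
        refine ⟨bs' (fun _ => 3 * j + 1) (fun r => 3 * (Nat.pair i (Nat.pair r j)) + 2) S
          (Nat.size k) 0, ?_, ?_⟩
        · have := bs'_depth (fun _ => 3 * j + 1) (fun r => 3 * (Nat.pair i (Nat.pair r j)) + 2) S
            (t * Nat.size k) hS1 (Nat.size k) 0
          have e : (t + 1) * Nat.size k = t * Nat.size k + Nat.size k := Nat.succ_mul _ _
          omega
        · intro u v
          have hc := bs'_eval (fun _ => 3 * j + 1) (fun r => 3 * (Nat.pair i (Nat.pair r j)) + 2) S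
            (F u) (F v) (rank ((lab v).lst i) ((lab u).num j)) (by
              intro r
              rw [hF2, hF1]
              have := hthr ((lab v).lst i) r (M j) _ (hM j u)
              rw [← this]
              omega) (Nat.size k) 0 (Nat.zero_le _) (by
              have := (rank_le ((lab v).lst i) ((lab u).num j)).trans (hk v i)
              omega)
          rw [hc, hS2]
          simp [RTree.eval]

end UDGCmp
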