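import Pool.Agent.Lib.UDGCmp.Final
import Pool.Agent.Lib.UDGCmp.Sim

/-! The theorem for rank trees (module of `UDGCmp`). -/

namespace UDGCmp

theorem main_rank {n : ℕ} (hn : 2 ^ 70 ≤ n) :
    ∃ p : Fin n → EuclideanSpace ℝ (Fin 2), ∀ (k t : ℕ) (R : RTree), R.within t →
      40 * (t * Nat.size k) ≤ Nat.log 2 n → ∀ lab : Fin n → Lab,
        (∀ v i, ((lab v).lst i).length ≤ k) →
        ¬ ∀ u v, u ≠ v → (R.eval (lab u) (lab v) = true ↔ dist (p u) (p v) ≤ 1) := by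
  obtain ⟨p, hp⟩ := main hn
  refine ⟨p, ?_⟩
  intro k t R hR hkt lab hlab h
  obtain ⟨F, hF⟩ := exists_sim lab hlab
  obtain ⟨T, hT1, hT2⟩ := hF R t hR
  refine hp T (by omega) F ?_
  intro u v huv
  rw [hT2]
  exact h u v huv

end UDGCmp
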