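import Pool.Agent.Lib.UDGCmp.Defs

/-! `log₂ n + 2` comparisons suffice for every graph (module of `UDGCmp`). -/

namespace UDGCmp

/-- Binary search for the number `0` of the second label in `[lo, lo + 2 ^ K)`, then one comparison. -/
def srch : ℕ → ℕ → CTree
  | 0, lo => CTree.node (3 + 2 * lo) 1 (CTree.leaf true) (CTree.leaf false)
  | K + 1, lo => CTree.node (2 + 2 * (lo + 2 ^ K)) 0 (srch K (lo + 2 ^ K)) (srch K lo)

theorem srch_depth (K : ℕ) : ∀ lo, (srch K lo).depth = K + 1 := by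
  induction K with
  | zero => intro lo; simp [srch, CTree.depth]
  | succ K ih => intro lo; simp [srch, CTree.depth, ih]

theorem srch_eval (r : ℕ → Prop) [DecidablePred r] (x y : ℕ → ℤ) (v : ℕ)
    (h0 : ∀ c : ℕ, x (2 + 2 * c) = c) (h1 : ∀ j : ℕ, x (3 + 2 * j) = if r j then 0 else 1)
    (h2 : y 0 = v) (h3 : y 1 = 0) (K : ℕ) : ∀ lo, lo ≤ v → v < lo + 2 ^ K →
    ((srch K lo).eval x y = true ↔ r v) := by
  induction K with
  | zero =>
    intro lo hlo hv
    have : lo = v := by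
      rw [pow_zero] at hv
      omega
    subst this
    by_cases hr : r lo
    · simp [srch, CTree.eval, h1, h3, hr]
    · simp [srch, CTree.eval, h1, h3, hr]
  | succ K ih =>
    intro lo hlo hv
    simp only [srch, CTree.eval, h0, h2]
    have e : (((lo + 2 ^ K : ℕ) : ℤ) ≤ (v : ℤ)) ↔ lo + 2 ^ K ≤ v := Nat.cast_le
    rw [pow_succ] at hv
    by_cases hc : lo + 2 ^ K ≤ v
    · rw [if_pos (e.2 hc)]
      exact ih _ hc (by omega)
    · rw [if_neg (fun h => hc (e.1 h))]
      exact ih _ hlo (by omega)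

theorem upper {n : ℕ} (r : Fin n → Fin n → Prop) :
    ∃ T : CTree, T.depth ≤ Nat.log 2 n + 2 ∧ ∃ lab : Fin n → ℕ → ℤ,
      ∀ u v, (T.eval (lab u) (lab v) = true ↔ r u v) := by
  classical
  let r' : Fin n → ℕ → Prop := fun u j => ∃ h : j < n, r u ⟨j, h⟩
  refine ⟨srch (Nat.log 2 n + 1) 0, (srch_depth _ _).le, fun u i =>
    if i = 0 then ((u : ℕ) : ℤ) else if i = 1 then 0 else
      if i % 2 = 0 then (((i - 2) / 2 : ℕ) : ℤ) else if r' u ((i - 3) / 2) then 0 else 1, ?_⟩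
  intro u v
  rw [srch_eval (r' u) _ _ (v : ℕ) ?_ ?_ ?_ ?_ (Nat.log 2 n + 1) 0 (Nat.zero_le _) ?_]
  · constructor
    · rintro ⟨h, hr⟩
      exact hr
    · intro hr
      exact ⟨v.2, hr⟩
  · intro c
    have h1 : ¬ (2 + 2 * c = 0) := by omega
    have h2 : ¬ (2 + 2 * c = 1) := by omega
    have h3 : (2 + 2 * c) % 2 = 0 := by omega
    have h4 : (2 + 2 * c - 2) / 2 = c := by omega
    simp only [h1, h2, h3, h4, if_true, if_false]
  · intro j
    have h1 : ¬ (3 + 2 * j = 0) := by omega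
    have h2 : ¬ (3 + 2 * j = 1) := by omega
    have h3 : ¬ ((3 + 2 * j) % 2 = 0) := by omega
    have h4 : (3 + 2 * j - 3) / 2 = j := by omega
    simp only [h1, h2, h3, h4, if_false]
  · simp
  · simp
  · rw [Nat.zero_add]
    exact v.2.trans (Nat.lt_pow_succ_log_self (by norm_num) n)

end UDGCmp
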