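import Pool.Agent.Lib.UDGCmp.RDefs

/-! Rank trees for every graph (module of `UDGCmp`). -/

namespace UDGCmp

open Classical

/-- Search with `k` thresholds per step for the number `0` of the second label, then one question. -/
def srchR (k : ℕ) : ℕ → ℕ → RTree
  | 0, lo => RTree.node true (2 * lo + 1) 1 (fun r => RTree.leaf (decide (1 ≤ r)))
  | K + 1, lo => RTree.node true (2 * Nat.pair K lo) 0 (fun r => srchR k K (lo + r * (k + 1) ^ K))

theorem srchR_within (k K : ℕ) : ∀ lo, (srchR k K lo).within (K + 1) := by
  induction K with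
  | zero =>
    intro lo
    simp [srchR, RTree.within]
  | succ K ih =>
    intro lo
    simp only [srchR, RTree.within]
    intro r
    exact ih _

theorem count_range (k d : ℕ) (hd : d ≤ k) :
    (List.range k).countP (fun i => decide (i + 1 ≤ d)) = d := by
  induction k with
  | zero =>
    have : d = 0 := by omega
    simp [this]
  | succ k ih =>
    rw [List.range_succ, List.countP_append]
    rcases Nat.lt_or_ge k d with h | h
    · have hd' : d = k + 1 := by omega
      subst hd'
      have h1 : (List.range k).countP (fun i => decide (i + 1 ≤ k + 1)) = k := by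
        rw [List.countP_eq_length.2]
        · simp
        · intro i hi
          rw [List.mem_range] at hi
          simp
          omega
      rw [h1]
      simp
    · rw [ih h]
      simp
      omega

theorem rank_thresholds (k B lo v : ℕ) (hB : 0 < B) (h1 : lo ≤ v) (h2 : v < lo + (k + 1) * B) :
    rank ((List.range k).map fun i => (((lo + (i + 1) * B : ℕ)) : ℤ)) (v : ℤ) = (v - lo) / B := by
  have hd : (v - lo) / B ≤ k := by
    have : (v - lo) / B < k + 1 := by
      rw [Nat.div_lt_iff_lt_mul hB]
      omega
    omega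
  unfold rank
  rw [List.countP_map]
  rw [← count_range k ((v - lo) / B) hd]
  apply List.countP_congr
  intro i _
  simp only [Function.comp, decide_eq_true_eq]
  rw [Nat.le_div_iff_mul_le hB, Nat.cast_le]
  omega

theorem upper_rank {n k t : ℕ} (hk : 0 < k) (hn : n ≤ (k + 1) ^ t) (r : Fin n → Fin n → Prop) :
    ∃ R : RTree, R.within (t + 1) ∧ ∃ lab : Fin n → Lab,
      (∀ v i, ((lab v).lst i).length ≤ k) ∧
      ∀ u v, (R.eval (lab u) (lab v) = true ↔ r u v) := by
  let r' : Fin n → ℕ → Prop := fun u j => ∃ h : j < n, r u ⟨j, h⟩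
  let L : Fin n → Lab := fun u =>
    { num := fun j => if j = 0 then ((u : ℕ) : ℤ) else 0
      lst := fun i => if i % 2 = 0 then
          (List.range k).map fun s => (((i / 2).unpair.2 + (s + 1) * (k + 1) ^ (i / 2).unpair.1 : ℕ) : ℤ)
        else if r' u (i / 2) then [0] else [] }
  have hl0 : ∀ u K lo, (L u).lst (2 * Nat.pair K lo) =
      (List.range k).map fun s => ((lo + (s + 1) * (k + 1) ^ K : ℕ) : ℤ) := by
    intro u K lo
    have h1 : 2 * Nat.pair K lo % 2 = 0 := by omega
    have h2 : 2 * Nat.pair K lo / 2 = Nat.pair K lo := by omega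
    show (if 2 * Nat.pair K lo % 2 = 0 then _ else _) = _
    rw [if_pos h1, h2, Nat.unpair_pair]
  have hl1 : ∀ u lo, (L u).lst (2 * lo + 1) = if r' u lo then [0] else [] := by
    intro u lo
    have h1 : ¬ (2 * lo + 1) % 2 = 0 := by omega
    have h2 : (2 * lo + 1) / 2 = lo := by omega
    show (if (2 * lo + 1) % 2 = 0 then _ else _) = _
    rw [if_neg h1, h2]
  have hev : ∀ (u v : Fin n) (K lo : ℕ), lo ≤ (v : ℕ) → (v : ℕ) < lo + (k + 1) ^ K →
      ((srchR k K lo).eval (L u) (L v) = true ↔ r' u v) := by
    intro u v K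
    induction K with
    | zero =>
      intro lo h1 h2
      have : lo = (v : ℕ) := by
        rw [pow_zero] at h2
        omega
      subst this
      simp only [srchR, RTree.eval, if_true, hl1]
      by_cases hr : r' u v
      · simp [hr, rank, L]
      · simp [hr, rank]
    | succ K ih =>
      intro lo h1 h2
      simp only [srchR, RTree.eval, if_true, hl0]
      have hB : 0 < (k + 1) ^ K := by positivity
      have h3 : (L v).num 0 = ((v : ℕ) : ℤ) := by simp [L]
      rw [pow_succ, mul_comm] at h2
      rw [h3, rank_thresholds k _ lo v hB h1 h2]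
      have hdm := Nat.div_add_mod' ((v : ℕ) - lo) ((k + 1) ^ K)
      have hml := Nat.mod_lt ((v : ℕ) - lo) hB
      generalize ((v : ℕ) - lo) % (k + 1) ^ K = w at hdm hml
      have e1 : lo + ((v : ℕ) - lo) / (k + 1) ^ K * (k + 1) ^ K ≤ (v : ℕ) := by
        generalize ((v : ℕ) - lo) / (k + 1) ^ K * (k + 1) ^ K = z at hdm ⊢
        omega
      have e2 : (v : ℕ) < lo + ((v : ℕ) - lo) / (k + 1) ^ K * (k + 1) ^ K + (k + 1) ^ K := by
        generalize ((v : ℕ) - lo) / (k + 1) ^ K * (k + 1) ^ K = z at hdm ⊢
        omega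
      exact ih _ e1 e2
  refine ⟨srchR k t 0, srchR_within k t 0, L, ?_, ?_⟩
  · intro v i
    show (if i % 2 = 0 then _ else _ : List ℤ).length ≤ k
    split_ifs
    · simp
    · simp
      omega
    · simp
  · intro u v
    rw [hev u v t 0 (Nat.zero_le _) (by rw [Nat.zero_add]; exact v.2.trans_le hn)]
    constructor
    · rintro ⟨h, hr⟩
      exact hr
    · intro hr
      exact ⟨v.2, hr⟩

end UDGCmp
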