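import Pool.Agent.Lib.UDGCmp.Halve

/-! Accepted pairs without a rectangle (module of `UDGCmp`). -/

namespace UDGCmp

open Finset

/-- A product all of whose pairs are accepted and which has no rectangle is thin. -/
theorem zar_leaf {α β : Type} [DecidableEq α] [DecidableEq β] (A : Finset α) (B : Finset β)
    (h : ∀ a ∈ A, ∀ a' ∈ A, ∀ b ∈ B, ∀ b' ∈ B, a ≠ a' → b ≠ b' → False) :
    A.card * B.card ≤ A.card + B.card := by
  by_cases hA : A.card ≤ 1
  · calc A.card * B.card ≤ 1 * B.card := Nat.mul_le_mul_right _ hA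
      _ ≤ A.card + B.card := by omega
  by_cases hB : B.card ≤ 1
  · calc A.card * B.card ≤ A.card * 1 := Nat.mul_le_mul_left _ hB
      _ ≤ A.card + B.card := by omega
  exfalso
  rw [not_le, one_lt_card] at hA hB
  obtain ⟨a, ha, a', ha', haa⟩ := hA
  obtain ⟨b, hb, b', hb', hbb⟩ := hB
  exact h a ha a' ha' b hb b' hb' haa hbb

/-- Induction on the tree, inside it induction on `L`. Leaf: the whole product has no rectangle, so
`A.card ≤ 1` or `B.card ≤ 1`. Node: `halve` with `H = 2 ^ (L - 1)`; the two halves by the same tree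
and `L - 1`, the pairs `A1 × (B \ B1)` by the subtree `s` and `(A \ A1) × B1` by `t`, with the same
`L`; `(15 / 16) + 1 / 16 = 1`. For `L = 0` the product is empty. -/
theorem zar (T : CTree) : ∀ (L : ℕ) {α β : Type} [DecidableEq α] [DecidableEq β] (A : Finset α)
    (B : Finset β) (x : α → ℕ → ℤ) (y : β → ℕ → ℤ), A.card + B.card ≤ 2 ^ L →
    (∀ a ∈ A, ∀ a' ∈ A, ∀ b ∈ B, ∀ b' ∈ B, a ≠ a' → b ≠ b' →
      ¬ (T.eval (x a) (y b) = true ∧ T.eval (x a) (y b') = true ∧
        T.eval (x a') (y b) = true ∧ T.eval (x a') (y b') = true)) →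
    (((A ×ˢ B).filter fun q => T.eval (x q.1) (y q.2) = true).card : ℝ) ≤
      ((A.card : ℝ) + B.card) * (16 : ℝ) ^ T.depth * (16 / 15 : ℝ) ^ L := by
  induction T with
  | leaf c =>
    intro L α β _ _ A B x y _ hrec
    have h1 : (((A ×ˢ B).filter fun q => (CTree.leaf c).eval (x q.1) (y q.2) = true).card : ℝ)
        ≤ (A.card : ℝ) + B.card := by
      cases c with
      | false =>
        have e : ((A ×ˢ B).filter fun q => (CTree.leaf false).eval (x q.1) (y q.2) = true) = ∅ := by
          apply filter_false_of_mem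
          intro q _
          simp [CTree.eval]
        rw [e]
        have : (0 : ℝ) ≤ (A.card : ℝ) + B.card := by positivity
        simpa using this
      | true =>
        have e : ((A ×ˢ B).filter fun q => (CTree.leaf true).eval (x q.1) (y q.2) = true)
            = A ×ˢ B := by
          apply filter_true_of_mem
          intro q _
          simp [CTree.eval]
        rw [e, card_product]
        have := zar_leaf A B (fun a ha a' ha' b hb b' hb' haa hbb =>
          hrec a ha a' ha' b hb b' hb' haa hbb (by simp [CTree.eval]))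
        exact_mod_cast this
    have h2 : (1 : ℝ) ≤ (16 / 15 : ℝ) ^ L := one_le_pow₀ (by norm_num)
    have h3 : (0 : ℝ) ≤ (A.card : ℝ) + B.card := by positivity
    simp only [CTree.depth, pow_zero, mul_one]
    calc _ ≤ (A.card : ℝ) + B.card := h1
      _ = ((A.card : ℝ) + B.card) * 1 := by ring
      _ ≤ ((A.card : ℝ) + B.card) * (16 / 15 : ℝ) ^ L := mul_le_mul_of_nonneg_left h2 h3
  | node i j s t ihs iht =>
    intro L
    induction L with
    | zero =>
      intro α β _ _ A B x y hN _
      have hAB : A ×ˢ B = ∅ := by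
        rw [← card_eq_zero, card_product]
        simp only [pow_zero] at hN
        rcases Nat.eq_zero_or_pos A.card with h | h
        · rw [h, zero_mul]
        · have : B.card = 0 := by omega
          rw [this, mul_zero]
      rw [hAB, filter_empty, card_empty]
      have : (0 : ℝ) ≤ ((A.card : ℝ) + B.card) * (16 : ℝ) ^ (CTree.node i j s t).depth *
        (16 / 15 : ℝ) ^ 0 := by positivity
      simpa using this
    | succ L ihL =>
      intro α β _ _ A B x y hN hrec
      obtain ⟨A1, hA1, B1, hB1, hc1, hc2, hle, hnle⟩ :=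
        halve A B (fun a => x a i) (fun b => y b j) (2 ^ L) (by rw [pow_succ] at hN; omega)
      have hcA : A1.card + (A \ A1).card = A.card := by
        have := card_sdiff_add_card_eq_card hA1; omega
      have hcB : B1.card + (B \ B1).card = B.card := by
        have := card_sdiff_add_card_eq_card hB1; omega
      -- the four parts
      set S : Finset (α × β) :=
        (A ×ˢ B).filter fun q => (CTree.node i j s t).eval (x q.1) (y q.2) = true with hS
      set S11 : Finset (α × β) :=
        (A1 ×ˢ B1).filter fun q => (CTree.node i j s t).eval (x q.1) (y q.2) = true with hS11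
      set S22 : Finset (α × β) :=
        ((A \ A1) ×ˢ (B \ B1)).filter fun q =>
          (CTree.node i j s t).eval (x q.1) (y q.2) = true with hS22
      set S12 : Finset (α × β) :=
        (A1 ×ˢ (B \ B1)).filter fun q => s.eval (x q.1) (y q.2) = true with hS12
      set S21 : Finset (α × β) :=
        ((A \ A1) ×ˢ B1).filter fun q => t.eval (x q.1) (y q.2) = true with hS21
      have hev1 : ∀ a ∈ A1, ∀ b ∈ B \ B1,
          (CTree.node i j s t).eval (x a) (y b) = s.eval (x a) (y b) := by
        intro a ha b hb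
        have := hle a ha b hb
        simp only [CTree.eval]
        rw [if_pos this]
      have hev2 : ∀ a ∈ A \ A1, ∀ b ∈ B1,
          (CTree.node i j s t).eval (x a) (y b) = t.eval (x a) (y b) := by
        intro a ha b hb
        have := hnle a ha b hb
        simp only [CTree.eval]
        rw [if_neg this]
      have hcover : S ⊆ (S11 ∪ S22) ∪ (S12 ∪ S21) := by
        intro q hq
        rw [hS, mem_filter, mem_product] at hq
        obtain ⟨⟨hqa, hqb⟩, hqe⟩ := hq
        rw [mem_union, mem_union, mem_union]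
        by_cases h1 : q.1 ∈ A1 <;> by_cases h2 : q.2 ∈ B1
        · left; left
          rw [hS11, mem_filter, mem_product]
          exact ⟨⟨h1, h2⟩, hqe⟩
        · right; left
          rw [hS12, mem_filter, mem_product]
          have h2' : q.2 ∈ B \ B1 := mem_sdiff.2 ⟨hqb, h2⟩
          exact ⟨⟨h1, h2'⟩, by rw [← hev1 q.1 h1 q.2 h2']; exact hqe⟩
        · right; right
          rw [hS21, mem_filter, mem_product]
          have h1' : q.1 ∈ A \ A1 := mem_sdiff.2 ⟨hqa, h1⟩
          exact ⟨⟨h1', h2⟩, by rw [← hev2 q.1 h1' q.2 h2]; exact hqe⟩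
        · left; right
          rw [hS22, mem_filter, mem_product]
          exact ⟨⟨mem_sdiff.2 ⟨hqa, h1⟩, mem_sdiff.2 ⟨hqb, h2⟩⟩, hqe⟩
      have hcard : S.card ≤ (S11.card + S22.card) + (S12.card + S21.card) :=
        (card_le_card hcover).trans ((card_union_le _ _).trans
          (add_le_add (card_union_le _ _) (card_union_le _ _)))
      -- the four bounds
      have b11 : (S11.card : ℝ) ≤ ((A1.card : ℝ) + B1.card) *
          (16 : ℝ) ^ (CTree.node i j s t).depth * (16 / 15 : ℝ) ^ L :=
        ihL A1 B1 x y hc1 fun a ha a' ha' b hb b' hb' haa hbb =>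
          hrec a (hA1 ha) a' (hA1 ha') b (hB1 hb) b' (hB1 hb') haa hbb
      have b22 : (S22.card : ℝ) ≤ (((A \ A1).card : ℝ) + (B \ B1).card) *
          (16 : ℝ) ^ (CTree.node i j s t).depth * (16 / 15 : ℝ) ^ L :=
        ihL (A \ A1) (B \ B1) x y hc2 fun a ha a' ha' b hb b' hb' haa hbb =>
          hrec a (mem_sdiff.1 ha).1 a' (mem_sdiff.1 ha').1 b (mem_sdiff.1 hb).1
            b' (mem_sdiff.1 hb').1 haa hbb
      have b12 : (S12.card : ℝ) ≤ ((A1.card : ℝ) + (B \ B1).card) *
          (16 : ℝ) ^ s.depth * (16 / 15 : ℝ) ^ (L + 1) := by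
        refine ihs (L + 1) A1 (B \ B1) x y (by omega) ?_
        intro a ha a' ha' b hb b' hb' haa hbb hcon
        refine hrec a (hA1 ha) a' (hA1 ha') b (mem_sdiff.1 hb).1 b' (mem_sdiff.1 hb').1 haa hbb ?_
        rw [hev1 a ha b hb, hev1 a ha b' hb', hev1 a' ha' b hb, hev1 a' ha' b' hb']
        exact hcon
      have b21 : (S21.card : ℝ) ≤ (((A \ A1).card : ℝ) + B1.card) *
          (16 : ℝ) ^ t.depth * (16 / 15 : ℝ) ^ (L + 1) := by
        refine iht (L + 1) (A \ A1) B1 x y (by omega) ?_
        intro a ha a' ha' b hb b' hb' haa hbb hcon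
        refine hrec a (mem_sdiff.1 ha).1 a' (mem_sdiff.1 ha').1 b (hB1 hb) b' (hB1 hb') haa hbb ?_
        rw [hev2 a ha b hb, hev2 a ha b' hb', hev2 a' ha' b hb, hev2 a' ha' b' hb']
        exact hcon
      -- numbers
      have hd : (CTree.node i j s t).depth = max s.depth t.depth + 1 := rfl
      set d : ℕ := max s.depth t.depth with hdd
      have p1 : (16 : ℝ) ^ s.depth ≤ (16 : ℝ) ^ d :=
        pow_le_pow_right₀ (by norm_num) (le_max_left _ _)
      have p2 : (16 : ℝ) ^ t.depth ≤ (16 : ℝ) ^ d :=
        pow_le_pow_right₀ (by norm_num) (le_max_right _ _)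
      have hr : (0 : ℝ) ≤ (16 / 15 : ℝ) ^ (L + 1) := by positivity
      have b12' : (S12.card : ℝ) ≤ ((A1.card : ℝ) + (B \ B1).card) *
          (16 : ℝ) ^ d * (16 / 15 : ℝ) ^ (L + 1) :=
        b12.trans (mul_le_mul_of_nonneg_right
          (mul_le_mul_of_nonneg_left p1 (by positivity)) hr)
      have b21' : (S21.card : ℝ) ≤ (((A \ A1).card : ℝ) + B1.card) *
          (16 : ℝ) ^ d * (16 / 15 : ℝ) ^ (L + 1) :=
        b21.trans (mul_le_mul_of_nonneg_right
          (mul_le_mul_of_nonneg_left p2 (by positivity)) hr)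
      have hcardR : (S.card : ℝ) ≤ ((S11.card : ℝ) + S22.card) + ((S12.card : ℝ) + S21.card) := by
        exact_mod_cast hcard
      have hcA' : (A.card : ℝ) = A1.card + (A \ A1).card := by exact_mod_cast hcA.symm
      have hcB' : (B.card : ℝ) = B1.card + (B \ B1).card := by exact_mod_cast hcB.symm
      rw [hd] at b11 b22 ⊢
      rw [hcA', hcB']
      have e1 : (16 : ℝ) ^ (d + 1) = 16 * 16 ^ d := by rw [pow_succ]; ring
      have e2 : (16 / 15 : ℝ) ^ (L + 1) = 16 / 15 * (16 / 15) ^ L := by rw [pow_succ]; ring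
      rw [e1] at b11 b22 ⊢
      rw [e2] at b12' b21' ⊢
      linarith
end UDGCmp
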